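import Mathlib

set_option autoImplicit false

namespace Pool.Agent.P.MP_9682d1_al

open Matrix

variable {E : Type} [CommRing E] [CharP E 2]

/-- parametrised element -/
def gP (a b c d m l : E) : Matrix (Fin 3) (Fin 3) E :=
  !![l * (1 + c + a * b + m * d * (1 + c)), l * (m * (1 + c)), l * (a + m * b * (1 + c));
     l * (d * (1 + c)), l * (1 + c), l * (b * (1 + c));
     l * (b + a * d * (1 + c)), l * (a * (1 + c)), l * (1 + a * b * (1 + c))]

def w0 : Matrix (Fin 3) (Fin 3) E := !![1, 1, 0; 0, 1, 0; 0, 0, 1]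

def w1 (b d : E) : Matrix (Fin 3) (Fin 3) E :=
  !![1 + d, d, b + b * d; 0, 1 + d, b * d; b * d, b, 1]

def w2 (a b c d m : E) : Matrix (Fin 3) (Fin 3) E :=
  !![1 + a * b * c * d, a * b * c * d,
      b * c + a * d + b * d + m * b * d + a * c * d + m * b * c * d;
     0, 1 + a * b * c * d, 0;
     0, b * c + a * d + b * d + m * b * d + a * c * d + m * b * c * d, 1]

def w3 (a b c d m : E) : Matrix (Fin 3) (Fin 3) E :=
  !![1 + a * b * d, 0, a * c * d + b * c * d + m * b * c * d;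
     0, 1 + a * b * d, b * c * d;
     b * c * d, a * c * d + b * c * d + m * b * c * d, 1]

def w4 (b c d m : E) : Matrix (Fin 3) (Fin 3) E :=
  !![1, 0, m * b * c * d; 0, 1, 0; 0, m * b * c * d, 1]

variable {a b c d m l : E}

theorem step1 (ha : a ^ 2 = 0) (hb : b ^ 2 = 0) (hc : c ^ 2 = 0) (hd : d ^ 2 = 0) :
    gP a b c d m l * w0 * w1 b d = w0 * gP a b c d m l := by
  ext i j
  fin_cases i <;> fin_cases j <;>
    simp [gP, w0, w1, Matrix.mul_apply, Fin.sum_univ_three] <;> grind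

theorem step2 (ha : a ^ 2 = 0) (hb : b ^ 2 = 0) (hc : c ^ 2 = 0) (hd : d ^ 2 = 0) :
    gP a b c d m l * w1 b d * w2 a b c d m = w1 b d * gP a b c d m l := by
  ext i j
  fin_cases i <;> fin_cases j <;>
    simp [gP, w2, w1, Matrix.mul_apply, Fin.sum_univ_three] <;> grind

theorem step3 (ha : a ^ 2 = 0) (hb : b ^ 2 = 0) (hc : c ^ 2 = 0) (hd : d ^ 2 = 0) :
    gP a b c d m l * w2 a b c d m * w3 a b c d m = w2 a b c d m * gP a b c d m l := by
  ext i j
  fin_cases i <;> fin_cases j <;>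
    simp [gP, w2, w3, Matrix.mul_apply, Fin.sum_univ_three] <;> grind

theorem step4 (ha : a ^ 2 = 0) (hb : b ^ 2 = 0) (hc : c ^ 2 = 0) (hd : d ^ 2 = 0) :
    gP a b c d m l * w3 a b c d m * w4 b c d m = w3 a b c d m * gP a b c d m l := by
  ext i j
  fin_cases i <;> fin_cases j <;>
    simp [gP, w4, w3, Matrix.mul_apply, Fin.sum_univ_three] <;> grind

theorem step5 (ha : a ^ 2 = 0) (hb : b ^ 2 = 0) (hc : c ^ 2 = 0) (hd : d ^ 2 = 0) :
    gP a b c d m l * w4 b c d m * 1 = w4 b c d m * gP a b c d m l := by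
  ext i j
  fin_cases i <;> fin_cases j <;>
    simp [gP, w4, Matrix.mul_apply, Fin.sum_univ_three] <;> grind

end Pool.Agent.P.MP_9682d1_al
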