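import Mathlib
import Pool.Agent.P.MP_9682d1_al.Calc

set_option autoImplicit false
set_option linter.unusedSimpArgs false
set_option linter.unusedSectionVars false
set_option linter.unnecessarySeqFocus false

namespace Pool.Agent.P.MP_9682d1_al

open Matrix

variable {E : Type} [CommRing E] [CharP E 2]

abbrev M3 (E : Type) := Matrix (Fin 3) (Fin 3) E

/-- the invariant form -/
def JJ : M3 E := !![0, 1, 0; 1, 0, 0; 0, 0, 1]

/-- entrywise squaring -/
def Fr : M3 E →+* M3 E := (frobenius E 2).mapMatrix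

theorem Fr_apply (g : M3 E) (i j : Fin 3) : Fr g i j = g i j ^ 2 := by
  simp [Fr, frobenius_def]

theorem w0_mul_w0 : (w0 : M3 E) * w0 = 1 := by
  ext i j
  fin_cases i <;> fin_cases j <;> simp [w0, Matrix.mul_apply, Fin.sum_univ_three]
  grind

theorem Fr_w0 : Fr (w0 : M3 E) = w0 := by
  ext i j
  fin_cases i <;> fin_cases j <;> simp [Fr_apply, w0]

theorem Fr_inv_of_eq (g : (M3 E)ˣ) (h : Fr (g : M3 E) = w0) : Fr ((g⁻¹ : (M3 E)ˣ) : M3 E) = w0 := by
  have h1 : Fr ((g⁻¹ : (M3 E)ˣ) : M3 E) * Fr (g : M3 E) = 1 := by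
    rw [← map_mul, Units.inv_mul, map_one]
  rw [h] at h1
  calc Fr ((g⁻¹ : (M3 E)ˣ) : M3 E) = Fr ((g⁻¹ : (M3 E)ˣ) : M3 E) * (w0 * w0) := by
        rw [w0_mul_w0, mul_one]
    _ = w0 := by rw [← mul_assoc, h1, one_mul]

theorem Fr_inv_of_eq_one (g : (M3 E)ˣ) (h : Fr (g : M3 E) = 1) :
    Fr ((g⁻¹ : (M3 E)ˣ) : M3 E) = 1 := by
  have h1 : Fr ((g⁻¹ : (M3 E)ˣ) : M3 E) * Fr (g : M3 E) = 1 := by
    rw [← map_mul, Units.inv_mul, map_one]
  rwa [h, mul_one] at h1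

variable (E) in
/-- the group -/
def GG : Subgroup (M3 E)ˣ where
  carrier := {g | (g : M3 E)ᵀ * JJ * (g : M3 E) = JJ ∧ (Fr (g : M3 E) = 1 ∨ Fr (g : M3 E) = w0)}
  mul_mem' := by
    rintro g h ⟨hg, hg'⟩ ⟨hh, hh'⟩
    refine ⟨?_, ?_⟩
    · rw [Units.val_mul, Matrix.transpose_mul]
      calc (h : M3 E)ᵀ * (g : M3 E)ᵀ * JJ * ((g : M3 E) * (h : M3 E))
          = (h : M3 E)ᵀ * ((g : M3 E)ᵀ * JJ * (g : M3 E)) * (h : M3 E) := by
            simp only [mul_assoc]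
        _ = JJ := by rw [hg, hh]
    · rw [Units.val_mul, map_mul]
      rcases hg' with hg' | hg' <;> rcases hh' with hh' | hh' <;> simp [hg', hh', w0_mul_w0]
  one_mem' := by simp
  inv_mem' := by
    rintro g ⟨hg, hg'⟩
    refine ⟨?_, ?_⟩
    · have h1 : ((g⁻¹ : (M3 E)ˣ) : M3 E)ᵀ * (g : M3 E)ᵀ = 1 := by
        rw [← Matrix.transpose_mul, Units.mul_inv, Matrix.transpose_one]
      calc ((g⁻¹ : (M3 E)ˣ) : M3 E)ᵀ * JJ * ((g⁻¹ : (M3 E)ˣ) : M3 E)
          = ((g⁻¹ : (M3 E)ˣ) : M3 E)ᵀ * ((g : M3 E)ᵀ * JJ * (g : M3 E)) *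
              ((g⁻¹ : (M3 E)ˣ) : M3 E) := by rw [hg]
        _ = (((g⁻¹ : (M3 E)ˣ) : M3 E)ᵀ * (g : M3 E)ᵀ) * JJ * ((g : M3 E) *
              ((g⁻¹ : (M3 E)ˣ) : M3 E)) := by simp only [mul_assoc]
        _ = JJ := by rw [h1, Units.mul_inv, one_mul, mul_one]
    · rcases hg' with hg' | hg'
      · exact Or.inl (Fr_inv_of_eq_one g hg')
      · exact Or.inr (Fr_inv_of_eq g hg')

theorem exists_param (g : GG E) : ∃ a b c d m l : E, a ^ 2 = 0 ∧ b ^ 2 = 0 ∧ c ^ 2 = 0 ∧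
    d ^ 2 = 0 ∧ ((g : (M3 E)ˣ) : M3 E) = gP a b c d m l := by
  obtain ⟨hg, hg'⟩ := g.2
  generalize ((g : (M3 E)ˣ) : M3 E) = G at hg hg' ⊢
  have hsq : G 0 2 ^ 2 = 0 ∧ G 1 0 ^ 2 = 0 ∧ G 1 1 ^ 2 = 1 ∧ G 1 2 ^ 2 = 0 ∧ G 2 0 ^ 2 = 0 ∧
      G 2 1 ^ 2 = 0 ∧ G 2 2 ^ 2 = 1 := by
    simp only [← Fr_apply]
    rcases hg' with h | h <;> simp [h, w0]
  obtain ⟨h02, h10, h11, h12, h20, h21, h22⟩ := hsq
  have e1 := congrFun (congrFun hg 0) 1
  have e2 := congrFun (congrFun hg 0) 2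
  have e3 := congrFun (congrFun hg 1) 2
  simp [JJ, Matrix.mul_apply, Fin.sum_univ_three] at e1 e2 e3
  refine ⟨G 2 1 * G 1 1, G 1 2 * G 1 1, G 1 1 * G 2 2 + 1 + G 2 1 * G 1 2, G 1 0 * G 1 1,
    G 0 1 * G 1 1, G 2 2 + G 1 1 * G 2 1 * G 1 2, by grind, by grind, by grind, by grind, ?_⟩
  ext i j
  fin_cases i <;> fin_cases j <;> simp [gP] <;> grind

/-- the right Engel element -/
def xx : GG E :=
  ⟨⟨w0, w0, w0_mul_w0, w0_mul_w0⟩, by
    refine ⟨?_, Or.inr Fr_w0⟩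
    ext i j
    fin_cases i <;> fin_cases j <;> simp [JJ, w0, Matrix.mul_apply, Fin.sum_univ_three]
    grind⟩

theorem comm_val {w g : GG E} {W W' : M3 E} (hw : ((w : (M3 E)ˣ) : M3 E) = W)
    (h : ((g : (M3 E)ˣ) : M3 E) * W * W' = W * ((g : (M3 E)ˣ) : M3 E)) :
    (((w⁻¹ * (g⁻¹ * w * g) : GG E) : (M3 E)ˣ) : M3 E) = W' := by
  subst hw
  have : (((w⁻¹ * (g⁻¹ * w * g) : GG E) : (M3 E)ˣ) : M3 E) =
      (((w : (M3 E)ˣ)⁻¹ : (M3 E)ˣ) : M3 E) * ((((g : (M3 E)ˣ)⁻¹ : (M3 E)ˣ) : M3 E) *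
        (((w : (M3 E)ˣ) : M3 E) * ((g : (M3 E)ˣ) : M3 E))) := by
    simp only [Subgroup.coe_mul, Subgroup.coe_inv, Units.val_mul, mul_assoc]
  rw [this, ← h]
  simp only [mul_assoc, Units.inv_mul_cancel_left]

theorem xx_engel (g : GG E) : (fun c : GG E => c⁻¹ * (g⁻¹ * c * g))^[5] xx = 1 := by
  obtain ⟨a, b, c, d, m, l, ha, hb, hc, hd, hg⟩ := exists_param g
  have h0 : (((xx : GG E) : (M3 E)ˣ) : M3 E) = w0 := rfl
  have h1 := comm_val (g := g) h0 (by rw [hg]; exact step1 ha hb hc hd)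
  have h2 := comm_val (g := g) h1 (by rw [hg]; exact step2 ha hb hc hd)
  have h3 := comm_val (g := g) h2 (by rw [hg]; exact step3 ha hb hc hd)
  have h4 := comm_val (g := g) h3 (by rw [hg]; exact step4 ha hb hc hd)
  have h5 := comm_val (g := g) h4 (by rw [hg]; exact step5 ha hb hc hd)
  apply Subtype.ext
  apply Units.ext
  exact h5

/-- ad f -/
def aF : M3 E := !![0, 0, 0; 0, 0, 1; 1, 0, 0]
/-- ad e -/
def aE : M3 E := !![0, 0, 1; 0, 0, 0; 0, 1, 0]
/-- ad h -/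
def aH : M3 E := !![1, 0, 0; 0, 1, 0; 0, 0, 0]

theorem rel1 : (aF : M3 E) + w0 * aF * w0 = aE := by
  ext i j
  fin_cases i <;> fin_cases j <;> simp [aF, aE, w0, Matrix.mul_apply, Fin.sum_univ_three] <;>
    grind

theorem rel2 : (aE : M3 E) * aF + aF * aE = aH := by
  ext i j
  fin_cases i <;> fin_cases j <;> simp [aF, aE, aH, Matrix.mul_apply, Fin.sum_univ_three] <;>
    grind

theorem rel3 : (aH : M3 E) * aF + aF * aH = aF := by
  ext i j
  fin_cases i <;> fin_cases j <;> simp [aF, aH, Matrix.mul_apply, Fin.sum_univ_three]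

/-- `z = 1 + t M` with `M` congruent to `N` -/
def Zs (t : E) (N : M3 E) (z : GG E) : Prop :=
  ∃ M : M3 E, ((z : (M3 E)ˣ) : M3 E) = 1 + t • M ∧ Fr M = N

theorem add_self_M (M : M3 E) : M + M = 0 := by
  ext i j
  simp [CharTwo.add_self_eq_zero]

theorem inv_of_Z {t : E} (ht : t ^ 2 = 0) {z : GG E} {M : M3 E}
    (hz : ((z : (M3 E)ˣ) : M3 E) = 1 + t • M) : z⁻¹ = z := by
  rw [inv_eq_iff_mul_eq_one]
  apply Subtype.ext
  apply Units.ext
  have ht' : t * t = 0 := by rw [← sq, ht]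
  simp only [Subgroup.coe_mul, Units.val_mul, hz, mul_add, add_mul, one_mul, mul_one,
    smul_mul_smul_comm, ht', zero_smul, add_zero, Subgroup.coe_one, Units.val_one]
  rw [add_assoc, add_self_M, add_zero]

theorem Z_comm_y {t : E} (ht : t ^ 2 = 0) {z y : GG E} (hz : Zs t aF z)
    (hy : Fr ((y : (M3 E)ˣ) : M3 E) = w0) : Zs t aE (z⁻¹ * (y⁻¹ * z * y)) := by
  obtain ⟨M, hM, hF⟩ := hz
  refine ⟨M + (((y : (M3 E)ˣ)⁻¹ : (M3 E)ˣ) : M3 E) * M * ((y : (M3 E)ˣ) : M3 E), ?_, ?_⟩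
  · rw [inv_of_Z ht hM]
    have ht' : t * t = 0 := by rw [← sq, ht]
    simp only [Subgroup.coe_mul, Subgroup.coe_inv, Units.val_mul, hM, mul_add, add_mul, one_mul,
      mul_one, Units.inv_mul, mul_smul_comm, smul_mul_assoc, smul_smul, ht', zero_smul,
      add_zero, smul_add]
    abel
  · rw [map_add, map_mul, map_mul, hF, hy, Fr_inv_of_eq _ hy, rel1]

theorem Z_comm_Z {t s : E} (ht : t ^ 2 = 0) (hs : s ^ 2 = 0) {z z' : GG E} {N N' : M3 E}
    (hz : Zs t N z) (hz' : Zs s N' z') :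
    Zs (t * s) (N * N' + N' * N) (z⁻¹ * (z'⁻¹ * z * z')) := by
  obtain ⟨M, hM, hF⟩ := hz
  obtain ⟨M', hM', hF'⟩ := hz'
  refine ⟨M * M' + M' * M, ?_, ?_⟩
  · rw [inv_of_Z ht hM, inv_of_Z hs hM']
    have ht' : t * t = 0 := by rw [← sq, ht]
    have hs' : s * s = 0 := by rw [← sq, hs]
    have e1 : s * (t * s) = 0 := by grind
    have e2 : t * (s * t) = 0 := by grind
    have e3 : s * t * s = 0 := by grind
    have e4 : t * s * t = 0 := by grind
    have e5 : s * t = t * s := mul_comm _ _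
    simp only [Subgroup.coe_mul, Units.val_mul, hM, hM', mul_add, add_mul, one_mul,
      mul_one, mul_smul_comm, smul_mul_assoc, smul_smul, ht', hs', zero_smul,
      add_zero, smul_add]
    ext i j
    simp only [Matrix.add_apply, Matrix.smul_apply, smul_eq_mul]
    grind
  · rw [map_add, map_mul, map_mul, hF, hF']

theorem Z_base {t : E} (ht : t ^ 2 = 0) : ∃ z : GG E, Zs t aF z := by
  have ht' : t * t = 0 := by rw [← sq, ht]
  have hsq : (1 + t • aF : M3 E) * (1 + t • aF) = 1 := by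
    simp only [mul_add, add_mul, one_mul, mul_one, smul_mul_smul_comm, ht', zero_smul, add_zero]
    rw [add_assoc, add_self_M, add_zero]
  refine ⟨⟨⟨1 + t • aF, 1 + t • aF, hsq, hsq⟩, ?_, Or.inl ?_⟩, aF, rfl, ?_⟩
  · ext i j
    fin_cases i <;> fin_cases j <;>
      simp [JJ, aF, Matrix.mul_apply, Fin.sum_univ_three, Matrix.one_apply] <;> grind
  · ext i j
    fin_cases i <;> fin_cases j <;> simp [Fr_apply, aF, ht, Matrix.one_apply]
  · ext i j
    fin_cases i <;> fin_cases j <;> simp [Fr_apply, aF]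

theorem prod_sq_zero {l : List E} (hl : 1 ≤ l.length) (h : ∀ c ∈ l, c ^ 2 = 0) :
    l.prod ^ 2 = 0 := by
  cases l with
  | nil => simp at hl
  | cons a l => rw [List.prod_cons, mul_pow, h a (by simp), zero_mul]

theorem conj_mem {G : Type} [Group G] {H K : Subgroup G} (hle : H ≤ K)
    (hN : (H.subgroupOf K).Normal) {h k : G} (hh : h ∈ H) (hk : k ∈ K) : k⁻¹ * h * k ∈ H := by
  have := hN.conj_mem ⟨h, hle hh⟩ (by simpa [Subgroup.mem_subgroupOf] using hh) ⟨k⁻¹, K.inv_mem hk⟩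
  simpa [Subgroup.mem_subgroupOf] using this

theorem subnormal_contains {H : Subgroup (GG E)} (hH : H.IsSubnormal) {y : GG E} (hyH : y ∈ H)
    (hy : Fr ((y : (M3 E)ˣ) : M3 E) = w0) :
    ∃ n : ℕ, 1 ≤ n ∧ ∀ l : List E, n ≤ l.length → (∀ c ∈ l, c ^ 2 = 0) →
      ∃ z ∈ H, Zs l.prod aF z := by
  induction hH with
  | top =>
    refine ⟨1, le_rfl, fun l hl h => ?_⟩
    obtain ⟨z, hz⟩ := Z_base (prod_sq_zero hl h)
    exact ⟨z, Subgroup.mem_top _, hz⟩
  | step H K hle _ hN ih =>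
    obtain ⟨n, hn, ih⟩ := ih (hle hyH)
    refine ⟨3 * n, by omega, fun l hl h => ?_⟩
    have hsplit : l = l.take n ++ ((l.drop n).take n ++ (l.drop n).drop n) := by
      rw [List.take_append_drop, List.take_append_drop]
    have l1 : n ≤ (l.take n).length := by simp; omega
    have l2 : n ≤ ((l.drop n).take n).length := by simp; omega
    have l3 : n ≤ ((l.drop n).drop n).length := by simp; omega
    have m1 : ∀ c ∈ l.take n, c ^ 2 = 0 := fun c hc => h c (List.mem_of_mem_take hc)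
    have m2 : ∀ c ∈ (l.drop n).take n, c ^ 2 = 0 := fun c hc =>
      h c (List.mem_of_mem_drop (List.mem_of_mem_take hc))
    have m3 : ∀ c ∈ (l.drop n).drop n, c ^ 2 = 0 := fun c hc =>
      h c (List.mem_of_mem_drop (List.mem_of_mem_drop hc))
    obtain ⟨z1, hz1, Z1⟩ := ih _ l1 m1
    obtain ⟨z2, hz2, Z2⟩ := ih _ l2 m2
    obtain ⟨z3, hz3, Z3⟩ := ih _ l3 m3
    have s1 := prod_sq_zero (hn.trans l1) m1
    have s2 := prod_sq_zero (hn.trans l2) m2
    have s3 := prod_sq_zero (hn.trans l3) m3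
    have A1 := Z_comm_y s1 Z1 hy
    have B1 : z1⁻¹ * (y⁻¹ * z1 * y) ∈ H := by
      have := H.mul_mem (conj_mem hle hN (H.inv_mem hyH) hz1) hyH
      simpa only [mul_assoc] using this
    have A2 := Z_comm_Z s1 s2 A1 Z2
    rw [rel2] at A2
    have B2 := H.mul_mem (H.inv_mem B1) (conj_mem hle hN B1 hz2)
    have A3 := Z_comm_Z (by rw [mul_pow, s1, zero_mul]) s3 A2 Z3
    rw [rel3] at A3
    have B3 := H.mul_mem (H.inv_mem B2) (conj_mem hle hN B2 hz3)
    refine ⟨_, B3, ?_⟩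
    have : l.prod = (l.take n).prod * ((l.drop n).take n).prod * ((l.drop n).drop n).prod := by
      conv_lhs => rw [hsplit]
      rw [List.prod_append, List.prod_append, mul_assoc]
    rw [this]
    exact A3

theorem xx_not_mem (hE : ∀ n : ℕ, ∃ l : List E, l.length = n ∧ (∀ c ∈ l, c ^ 2 = 0) ∧ l.prod ≠ 0) :
    (xx : GG E) ∉ sSup {H : Subgroup (GG E) | IsCyclic H ∧ H.IsSubnormal} := by
  let K : Subgroup (GG E) :=
    { carrier := {g | Fr ((g : (M3 E)ˣ) : M3 E) = 1}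
      mul_mem' := by
        intro a b ha hb
        simp only [Set.mem_ofPred_eq] at ha hb ⊢
        rw [Subgroup.coe_mul, Units.val_mul, map_mul, ha, hb, one_mul]
      one_mem' := by simp
      inv_mem' := by
        intro a ha
        exact Fr_inv_of_eq_one _ ha }
  have hle : sSup {H : Subgroup (GG E) | IsCyclic H ∧ H.IsSubnormal} ≤ K := by
    refine sSup_le ?_
    rintro H ⟨hc, hs⟩ y hyH
    rcases y.2.2 with hy | hy
    · exact hy
    exfalso
    obtain ⟨n, hn, h⟩ := subnormal_contains hs hyH hy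
    obtain ⟨l, hl, hl2, hl0⟩ := hE n
    obtain ⟨z, hz, Z⟩ := h l hl.ge hl2
    have s1 := prod_sq_zero (hn.trans hl.ge) hl2
    obtain ⟨M, hM, hF⟩ := Z_comm_y s1 Z hy
    have hcomm : z * y = y * z := by
      have := hc.isMulCommutative
      have := mul_comm' (⟨z, hz⟩ : H) ⟨y, hyH⟩
      exact congrArg Subtype.val this
    have h1 : z⁻¹ * (y⁻¹ * z * y) = 1 := by
      rw [mul_assoc y⁻¹, hcomm]; simp
    rw [h1] at hM
    have h2 : l.prod * M 0 2 = 0 := by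
      have := congrFun (congrFun hM 0) 2
      simpa using this.symm
    have h3 : M 0 2 ^ 2 = 1 := by
      rw [← Fr_apply, hF]; simp [aE]
    apply hl0
    calc l.prod = l.prod * M 0 2 ^ 2 := by rw [h3, mul_one]
      _ = 0 := by rw [sq, ← mul_assoc, h2, zero_mul]
  intro hx
  have h1 : Fr (w0 : M3 E) = 1 := hle hx
  rw [Fr_w0] at h1
  have h2 : (1 : E) = 0 := by
    have := congrFun (congrFun h1 0) 1
    simpa [w0] using this
  obtain ⟨l, -, -, hl0⟩ := hE 0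
  apply hl0
  rw [← mul_one l.prod, h2, mul_zero]

theorem exists_ring (n : ℕ) : ∃ (R : Type) (_ : CommRing R), (2 : R) = 0 ∧
    ∃ l : List R, l.length = n ∧ (∀ c ∈ l, c ^ 2 = 0) ∧ l.prod ≠ 0 := by
  induction n with
  | zero => exact ⟨ZMod 2, inferInstance, rfl, [], rfl, by simp, by simp⟩
  | succ n ih =>
    obtain ⟨R, _, h2, l, hl, hl2, hl0⟩ := ih
    refine ⟨DualNumber R, inferInstance, ?_,
      DualNumber.eps :: l.map (algebraMap R (DualNumber R)), by simp [hl], ?_, ?_⟩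
    · rw [← map_ofNat (algebraMap R (DualNumber R)) 2, h2, map_zero]
    · intro c hc
      rcases List.mem_cons.1 hc with rfl | hc
      · rw [sq, DualNumber.eps_mul_eps]
      · obtain ⟨c, hc', rfl⟩ := List.mem_map.1 hc
        rw [← map_pow, hl2 c hc', map_zero]
    · rw [List.prod_cons, ← map_list_prod]
      intro h
      apply hl0
      have := congrArg TrivSqZeroExt.snd h
      simpa [TrivSqZeroExt.algebraMap_eq_inl] using this

theorem exists_big_ring : ∃ (E : Type) (_ : CommRing E) (_ : CharP E 2),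
    ∀ n : ℕ, ∃ l : List E, l.length = n ∧ (∀ c ∈ l, c ^ 2 = 0) ∧ l.prod ≠ 0 := by
  choose R inst h2 l hl hl2 hl0 using exists_ring
  have hnt : Nontrivial (∀ n, R n) := by
    refine ⟨⟨Pi.single 0 (l 0).prod, 0, fun h => hl0 0 ?_⟩⟩
    have := congrFun h 0
    simpa using this
  have h2' : (2 : ∀ n, R n) = 0 := by
    funext n
    exact h2 n
  refine ⟨∀ n, R n, inferInstance, CharTwo.of_one_ne_zero_of_two_eq_zero one_ne_zero h2', fun n => ?_⟩
  refine ⟨(l n).map (fun c => Pi.single n c), by simp [hl], ?_, ?_⟩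
  · intro c hc
    obtain ⟨c, hc', rfl⟩ := List.mem_map.1 hc
    funext k
    by_cases hk : k = n
    · subst hk; simpa using hl2 k c hc'
    · simp [Pi.single_eq_of_ne hk]
  · intro h
    apply hl0 n
    have := congrArg (Pi.evalRingHom R n) h
    rw [map_list_prod, List.map_map, map_zero] at this
    simpa [Function.comp_def] using this

theorem main : ∃ (G : Type) (_ : Group G) (a : G),
    (∀ x : G, (fun c : G => c⁻¹ * (x⁻¹ * c * x))^[5] a = 1) ∧
      a ∉ sSup {H : Subgroup G | IsCyclic H ∧ H.IsSubnormal} := by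
  obtain ⟨E, _, _, hE⟩ := exists_big_ring
  exact ⟨GG E, inferInstance, xx, xx_engel, xx_not_mem hE⟩

end Pool.Agent.P.MP_9682d1_al
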